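import Mathlib
import Pool.Agent.H.MP_23b914_co.B

set_option autoImplicit false

namespace Pool.Agent.Results.MP_23b914_co.No

open Pool.Agent.H.MP_23b914_co Finset

theorem result : ∃ (x : ℕ → ℕ) (A : Set ℤ), (∀ n, 0 < x n) ∧ StrictMono x ∧
    (∃ δ : ℝ, 0 < δ ∧ ∀ N₀ : ℕ, ∃ N : ℕ, N₀ ≤ N ∧ ∃ M : ℤ,
      δ * N ≤ ((A ∩ Set.Ioc M (M + N)).ncard : ℝ)) ∧
    ∀ (k : ℕ) (α : Fin k → ℝ) (η : ℝ), 0 < η →
      ¬ {y : ℤ | ∀ j, ‖Complex.exp (2 * Real.pi * Complex.I * α j * y) - 1‖ < η} ⊆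
        {y : ℤ | ∃ a ∈ A, ∃ a' ∈ A, ∃ F : Finset ℕ, F.Nonempty ∧
          y = a - a' + ∑ n ∈ F, (x n : ℤ)} := by
  obtain ⟨σ, h⟩ : ∃ σ, ∀ N₀ : ℕ, ∃ N : ℕ, N₀ ≤ N ∧ ∃ M : ℤ,
      (1 / 8 : ℝ) * N ≤ ((H.MP_23b914_co.Rep σ ∩ Set.Ioc M (M + N)).ncard : ℝ) := by
    by_contra h
    push Not at h
    obtain ⟨N, h0⟩ := h 0
    obtain ⟨M, h1⟩ := h 1
    have a := (s_ge (N + M)).trans (W_ge _).le
    have b := many (N + M)
    rw [Set.union_inter_distrib_right] at b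
    have c := b.trans (Nat.mul_le_mul_left _ (Set.ncard_union_le _ _))
    have := h0 _ (le_self_add.trans a) (-1)
    have := h1 _ (le_add_self.trans a) (-1)
    rify at c
    linarith
  refine ⟨fun k => 2 * W k, H.MP_23b914_co.Rep σ, fun k => mul_pos two_pos (W_pos k),
    strictMono_nat_of_lt_succ fun k => ?_, ⟨_, by norm_num, h⟩, fun k α η hη e => ?_⟩
  · have := W_pos k
    have := Nat.zero_le (W k * 2 ^ (k + 3))
    rw [W]; nlinarith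
  obtain ⟨K, hK⟩ := bohr α hη
  obtain ⟨c, c1, c2, c3⟩ := hK (I K) fun i => W i
  obtain ⟨a, ha, b, hb, F, -, e⟩ := e c3
  exact avoid σ K c c1 c2 F ha hb (by simpa using e)

end Pool.Agent.Results.MP_23b914_co.No
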